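import Pool.Agent.Y136.RN.Centre

/-!
# MP_67b4ec_an: the radical of `ℓ¹(ℤ)''` is not nil, and it has nilpotent elements of every index

`H937R3.EllOne G` is the Banach algebra `ℓ¹(G)` of a discrete group `G` (Mathlib's
`lp (fun _ : G => ℂ) 1` with the convolution product), `H937R3.Bidual A` is the second dual `A''`
of a normed algebra `A` with the first Arens product, and `Ring.jacobson` is Mathlib's Jacobson
radical of a ring; these are the definitions of the starting result `InfiniteCentre`.

Let `G` be a group with infinite centre, for instance `ℤ` or any other infinite commutative group.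
Then the radical of `(ℓ¹(G)'', □)` contains

* an element `Φ` which is not nilpotent (`Φ □ Φ □ ⋯ □ Φ ≠ 0` for every number of factors), and
* for every `n` an element `Φ` whose `n`-th power is not zero and whose `(n+1)`-th power is zero.

In particular `rad(ℓ¹(G)'')^{□ n} ≠ {0}` for every `n`, so that the answer to Q2 is negative in a
strong sense (`n = 2` is the question).  The starting result `InfiniteCentre` gives two elements
of the radical whose product is not zero.

Proof.  The blocks `W_0, W_1, …` (almost invariant under `x_k`) of the starting file are
distributed to infinitely many sequences, `s = 0, 1, 2, …`, by the pairing function `⟨s, i⟩`: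
`a_{s,n} = 2^{-s} (1 - δ_{x_⟨s,n⟩}) ∏_{i < n} w_⟨s,i⟩`.  Their weak-* cluster points `z_s` satisfy
`z_s □ c □ z_s = 0` for all `c`, `‖z_s‖ ≤ 2 · 2^{-s}`, and for *all lists* `s_1, …, s_k` of different
indices, in any order, the value of `z_{s_1} □ ⋯ □ z_{s_k}` at *one* functional `F` has real part at
least `2^{-s_1 - ⋯ - s_k} / 2`: `F` is multiplicative on products over different positions, so the
iterated limits are bounded below.  Hence in the expansions of the powers of `z_0 + ⋯ + z_{N-1}` the
words with a repeated letter vanish and all the others have positive values at `F`; the radical of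
a Banach algebra is closed, so that `Φ = ∑ z_s` lies in it, and `F(Φ^n) > 0` for all `n`.
-/

namespace Pool.Agent.Results.MP_67b4ec_an.RadicalNotNil

open H937R3

/-- If the centre of the discrete group `G` is infinite, the Jacobson radical of `ℓ¹(G)''` (first
Arens product) contains an element which is not nilpotent, and for every `n` an element `Φ` with
`Φ ^ n ≠ 0` and `Φ ^ (n + 1) = 0`. -/
theorem result (G : Type*) [DecidableEq G] [Group G] (hG : (Set.center G).Infinite) :
    (∃ Φ ∈ Ring.jacobson (Bidual (EllOne G)), ∀ n : ℕ, Φ ^ n ≠ 0) ∧
      ∀ n : ℕ, ∃ Φ ∈ Ring.jacobson (Bidual (EllOne G)), Φ ^ n ≠ 0 ∧ Φ ^ (n + 1) = 0 :=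
  Pool.Agent.Y136.RN.radical_not_nil G hG

end Pool.Agent.Results.MP_67b4ec_an.RadicalNotNil
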